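import Mathlib

open Finset Complex Real ZMod

namespace Pool.Agent.Results.MP_10d431_nt.Tenth

/-- The value at `x` of the polynomial whose roots are the `e^(2 π i k^2 / p)`. -/
noncomputable def S (p : ℕ) (x : ℂ) : ℂ :=
  ∏ k ∈ Icc 1 ((p - 1) / 2), (x - cexp (2 * π * I * (k : ℂ) ^ 2 / p))

/-- The number of quadratic nonresidues modulo `p` in `[1, N]`. -/
def nr (p : ℕ) [Fact p.Prime] (N : ℕ) : ℕ :=
  #((Icc 1 N).filter fun k : ℕ => legendreSym p k = -1)

variable (p : ℕ) [hp : Fact p.Prime]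

def Q (e : ℤ) : Finset (ZMod p) := {r | quadraticChar (ZMod p) r = e}

def R : Finset ℕ := {k ∈ Icc 1 ((p - 1) / 2) | quadraticChar (ZMod p) k = 1}

variable {p}

lemma vm {k : ℕ} (hk : k ∈ Icc 1 ((p - 1) / 2)) : (k : ZMod p).valMinAbs.natAbs = k := by
  rw [mem_Icc] at hk
  rw [valMinAbs_natCast_of_le_half (by omega), Int.natAbs_natCast]

lemma nz {k : ℕ} (hk : k ∈ Icc 1 ((p - 1) / 2)) : (k : ZMod p) ≠ 0 := fun h => by
  have := vm hk
  rw [h] at this
  simp at this hk
  omega

lemma vmem (h2 : p % 2 = 1) {r : ZMod p} (hr : r ≠ 0) :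
    r.valMinAbs.natAbs ∈ Icc 1 ((p - 1) / 2) := by
  have := natAbs_valMinAbs_le r
  have : r.valMinAbs.natAbs ≠ 0 := by simpa
  rw [mem_Icc]
  omega

lemma sq_prod (h2 : p % 2 = 1) (f : ZMod p → ℂ) :
    ∏ k ∈ Icc 1 ((p - 1) / 2), f ((k : ℕ) ^ 2) = ∏ r ∈ Q p 1, f r := by
  refine prod_nbij (fun k : ℕ => (k : ZMod p) ^ 2) (fun k hk => ?_) (fun k hk l hl h => ?_)
    (fun r hr => ?_) fun _ _ => rfl
  · simpa [Q] using quadraticChar_sq_one' (nz hk)
  · rw [← vm hk, ← vm hl]
    exact natAbs_valMinAbs_eq_natAbs_valMinAbs.2 (sq_eq_sq_iff_eq_or_eq_neg.1 h)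
  · have h1 : quadraticChar (ZMod p) r = 1 := by simpa [Q] using hr
    have h0 : r ≠ 0 := by rintro rfl; simp at h1
    obtain ⟨s, rfl⟩ := (quadraticChar_one_iff_isSquare h0).1 h1
    refine ⟨s.valMinAbs.natAbs, vmem h2 (left_ne_zero_of_mul h0), ?_⟩
    simp only [natCast_natAbs_valMinAbs]
    split_ifs <;> ring

lemma mul_prod {a : ZMod p} {e : ℤ} (ha : quadraticChar (ZMod p) a = e) (h0 : a ≠ 0)
    (f : ZMod p → ℂ) : ∏ r ∈ Q p 1, f (a * r) = ∏ r ∈ Q p e, f r := by
  refine prod_equiv (Equiv.mulLeft₀ a h0) (fun r => ?_) fun _ _ => rfl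
  have : e ≠ 0 := by rw [← ha]; exact fun h => h0 (quadraticChar_eq_zero_iff.1 h)
  simp only [Q, mem_filter, mem_univ, true_and, Equiv.mulLeft₀_apply, map_mul, ha]
  exact (mul_eq_left₀ this).symm

lemma half (h4 : p % 4 = 1) (f : ZMod p → ℂ) :
    ∏ r ∈ Q p 1, f r = ∏ k ∈ R p, f k * f (-k) := by
  have m : quadraticChar (ZMod p) (-1) = 1 := (quadraticChar_one_iff_isSquare (by simp)).2
    (exists_sq_eq_neg_one_iff.2 (by omega))
  have m' : ∀ r, quadraticChar (ZMod p) (-r) = quadraticChar (ZMod p) r := fun r => by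
    rw [← neg_one_mul, map_mul, m, one_mul]
  rw [← prod_fiberwise_of_maps_to (t := R p) (g := fun r => r.valMinAbs.natAbs)]
  · refine prod_congr rfl fun k hk => ?_
    obtain ⟨hk, h1⟩ := mem_filter.1 hk
    rw [← prod_pair (fun h => ?_)]
    · congr 1
      ext r
      conv_lhs => rw [← vm hk]
      simp only [Q, mem_filter, mem_univ, true_and, natAbs_valMinAbs_eq_natAbs_valMinAbs,
        mem_insert, mem_singleton, and_iff_right_iff_imp]
      rintro (rfl | rfl)
      · exact h1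
      · rw [m', h1]
    · have : (2 : ZMod p) ≠ 0 := fun h => by
        have := Nat.le_of_dvd two_pos ((ZMod.natCast_eq_zero_iff 2 p).1 h)
        have := hp.1.two_le
        omega
      exact mul_ne_zero this (nz hk) (by linear_combination h)
  · intro r hr
    have h1 : quadraticChar (ZMod p) r = 1 := by simpa [Q] using hr
    refine mem_filter.2 ⟨vmem (by omega) (by rintro rfl; simp at h1), ?_⟩
    rw [natCast_natAbs_valMinAbs]
    split_ifs
    · exact h1
    · rw [m', h1]

lemma full (h2 : p % 2 = 1) (x : ℂ) : (x - 1) * (∏ r ∈ Q p 1, (x - stdAddChar r)) *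
    ∏ r ∈ Q p (-1), (x - stdAddChar r) = x ^ p - 1 := by
  have h := congrArg (Polynomial.eval x) (X_pow_sub_C_eq_prod
    (Complex.isPrimitiveRoot_exp p hp.1.ne_zero) hp.1.pos (one_pow p))
  simp only [Polynomial.eval_sub, Polynomial.eval_pow, Polynomial.eval_X, Polynomial.eval_C,
    Polynomial.eval_prod, mul_one] at h
  have e : ∏ i ∈ range p, (x - cexp (2 * π * I / p) ^ i) = ∏ r : ZMod p, (x - stdAddChar r) := by
    refine prod_nbij' (fun i => (i : ZMod p)) ZMod.val (by simp) (fun r _ => by simp [val_lt])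
      (fun i hi => val_cast_of_lt (mem_range.1 hi)) (by simp) fun i _ => ?_
    rw [← Int.cast_natCast (R := ZMod p), stdAddChar_coe, ← Complex.exp_nat_mul]
    congr 2; push_cast; ring
  rw [h, e, ← prod_fiberwise_of_maps_to (s := univ) (t := {0, 1, -1}) (g := quadraticChar (ZMod p)),
    prod_insert (by simp), prod_pair (by simp), mul_assoc]
  · congr 1
    rw [show ({r | quadraticChar (ZMod p) r = 0} : Finset (ZMod p)) = {0} by
      ext; simp only [mem_filter, mem_univ, true_and, quadraticChar_eq_zero_iff, mem_singleton]]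
    simp
  · intro r _
    rcases eq_or_ne r 0 with rfl | h
    · simp
    · simpa using .inr (quadraticChar_dichotomy h)

lemma S_eq (h2 : p % 2 = 1) (x : ℂ) : S p x = ∏ r ∈ Q p 1, (x - stdAddChar r) := by
  rw [← sq_prod h2 fun r => x - stdAddChar r]
  refine prod_congr rfl fun k _ => ?_
  have := stdAddChar_coe (N := p) (k ^ 2)
  push_cast at this
  rw [this]

noncomputable def c (p k : ℕ) : ℝ := 2 * Real.cos (2 * π * k / p)

noncomputable def G (p : ℕ) [Fact p.Prime] (u : ℂ) : ℂ := ∏ k ∈ R p, (u - c p k)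

lemma c_eq (k : ℕ) : (c p k : ℂ) = stdAddChar (k : ZMod p) + stdAddChar (-k : ZMod p) := by
  have h1 := stdAddChar_coe (N := p) k
  have h2 := stdAddChar_coe (N := p) (-k)
  push_cast at h1 h2
  rw [h1, h2, c]
  push_cast
  rw [Complex.two_cos]
  congr 2 <;> ring

lemma inv1 (r : ZMod p) : stdAddChar r * stdAddChar (-r) = 1 := by
  rw [← AddChar.map_add_eq_mul]; simp

lemma S_G (h4 : p % 4 = 1) {x y : ℂ} (h : x * y = 1) : S p x = x ^ #(R p) * G p (x + y) := by
  rw [S_eq (by omega), half h4, G, ← prod_const, ← prod_mul_distrib]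
  refine prod_congr rfl fun k _ => ?_
  rw [c_eq]
  linear_combination inv1 (k : ZMod p) - h

lemma card_R (h4 : p % 4 = 1) : (p - 1) / 2 = 2 * #(R p) := by
  have := (sq_prod (p := p) (by omega) fun _ => 2).trans (half h4 _)
  rw [prod_const, prod_const, ← sq, ← pow_mul, Nat.card_Icc] at this
  have : (2 : ℕ) ^ ((p - 1) / 2 + 1 - 1) = 2 ^ (2 * #(R p)) := by exact_mod_cast this
  exact Nat.pow_right_injective le_rfl this

section
variable (h : p % 40 = 21 ∨ p % 40 = 29)
include h

lemma q2 : quadraticChar (ZMod p) 2 = -1 :=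
  quadraticChar_neg_one_iff_not_isSquare.2 (by rw [exists_sq_eq_two_iff (by omega)]; omega)

lemma q5 : quadraticChar (ZMod p) 5 = 1 := by
  have : Fact (Nat.Prime 5) := ⟨by norm_num⟩
  refine (quadraticChar_one_iff_isSquare fun e => ?_).2
    ((exists_sq_eq_prime_iff_of_mod_four_eq_one (q := 5) (by omega) (by norm_num)).2 ?_)
  · have := Nat.le_of_dvd (by norm_num) ((ZMod.natCast_eq_zero_iff 5 p).1 e)
    omega
  · rw [← ZMod.natCast_mod]
    rcases (by omega : p % 5 = 1 ∨ p % 5 = 4) with e | e <;> rw [e]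
    · exact ⟨1, rfl⟩
    · exact ⟨2, rfl⟩

lemma dbl (x : ℂ) : S p x * S p (-x) * S p (x ^ 2) * (x ^ 2 - 1) = (x ^ 2) ^ p - 1 := by
  have e := half (p := p) (by omega) fun _ => -1
  rw [← full (p := p) (by omega) (x ^ 2), ← mul_prod (q2 h) (by rintro e; simpa [e] using q2 h),
    S_eq (by omega), S_eq (by omega), S_eq (by omega), ← prod_mul_distrib]
  have : ∏ r ∈ Q p 1, (x - stdAddChar r) * (-x - stdAddChar r) =
      (∏ r ∈ Q p 1, -1) * ∏ r ∈ Q p 1, (x ^ 2 - stdAddChar (2 * r)) := by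
    rw [← prod_mul_distrib]
    refine prod_congr rfl fun r _ => ?_
    rw [two_mul, AddChar.map_add_eq_mul]; ring
  rw [this, e]
  simp only [neg_mul_neg, mul_one, prod_const_one]
  ring

noncomputable def H (p : ℕ) [Fact p.Prime] : ℂ := ∏ k ∈ R p, (c p k ^ 2 + c p k - 1)

lemma H_sq : H p ^ 2 = 1 := by
  have e := mul_prod (q5 h) (by rintro e; simpa [e] using q5 h) fun r => 1 - stdAddChar r
  have z : ∏ r ∈ Q p 1, (1 - stdAddChar r) ≠ 0 := prod_ne_zero_iff.2 fun r hr e => by
    have : r = 0 := injective_stdAddChar (by rw [AddChar.map_zero_eq_one]; linear_combination -e)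
    simp [Q, this] at hr
  refine mul_left_cancel₀ z ?_
  rw [mul_one]
  conv_rhs => rw [← e]
  rw [half (by omega), half (by omega), H, ← prod_pow, ← prod_mul_distrib]
  refine prod_congr rfl fun k _ => ?_
  have f : ∀ r : ZMod p, stdAddChar (5 * r) = stdAddChar r ^ 5 := fun r => by
    rw [← AddChar.map_nsmul_eq_pow]; simp
  have := inv1 (k : ZMod p)
  rw [f, f, c_eq]
  generalize stdAddChar (k : ZMod p) = a at *
  generalize stdAddChar (-k : ZMod p) = b at *
  grind

lemma val {z : ℂ} (hz : z ^ 4 - z ^ 3 + z ^ 2 - z + 1 = 0) :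
    G p (z - z ^ 4) = (if p % 40 = 21 then -1 else 1) * H p ∧
      S p z = (if p % 40 = 21 then -1 else -z ^ 2) * G p (z - z ^ 4) := by
  have z5 : z ^ 5 = -1 := by linear_combination (z + 1) * hz
  have z10 : z ^ 10 = 1 := by linear_combination (z ^ 5 - 1) * z5
  have d := dbl h z
  have s1 := S_G (p := p) (by omega) (show z * -z ^ 4 = 1 by linear_combination -z5)
  have s2 := S_G (p := p) (by omega) (show -z * z ^ 4 = 1 by linear_combination -z5)
  have s3 := S_G (p := p) (by omega) (show z ^ 2 * -z ^ 3 = 1 by linear_combination -z5)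
  have e : G p (-z + z ^ 4) * G p (z ^ 2 + -z ^ 3) = H p := by
    rw [G, G, H, ← prod_mul_distrib]
    refine prod_congr rfl fun k _ => ?_
    grind
  have m := card_R (p := p) (by omega)
  have hs := H_sq h
  rw [← sub_eq_add_neg] at s1
  rw [s1, s2, s3, neg_pow, ← pow_mul, ← pow_mul, pow_eq_pow_mod _ z10,
    pow_eq_pow_mod (2 * _) z10, pow_eq_pow_mod (2 * p) z10,
    (Nat.odd_iff.2 (by omega)).neg_one_pow] at d
  rw [s1, pow_eq_pow_mod #(R p) z10]
  have z2 : z ^ 2 - 1 ≠ 0 := fun e => by grind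
  rcases h with h | h
  · rw [if_pos h, if_pos h]
    rw [show #(R p) % 10 = 5 by omega] at d ⊢
    rw [show 2 * #(R p) % 10 = 0 by omega, show 2 * p % 10 = 2 by omega] at d
    grind
  · rw [if_neg (by omega), if_neg (by omega)]
    rw [show #(R p) % 10 = 7 by omega] at d ⊢
    rw [show 2 * #(R p) % 10 = 4 by omega, show 2 * p % 10 = 8 by omega] at d
    grind

end

lemma cyc {z : ℂ} (hz : IsPrimitiveRoot z 10) : z ^ 4 - z ^ 3 + z ^ 2 - z + 1 = 0 := by
  have h1 := hz.pow_eq_one
  have h2 := hz.pow_ne_one_of_pos_of_lt (l := 5) (by norm_num) (by norm_num)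
  have h3 := hz.pow_ne_one_of_pos_of_lt (l := 2) (by norm_num) (by norm_num)
  grind

lemma sgn (h : p % 40 = 21 ∨ p % 40 = 29) :
    (if p % 40 = 21 then -1 else 1) * H p = -(-1) ^ nr p (p / 10 + 1) := by
  have hz := Complex.isPrimitiveRoot_exp 10 (by norm_num)
  have v := (val h (cyc hz)).1
  have hs := H_sq h
  have p0 : (0 : ℝ) < p := by exact_mod_cast hp.1.pos
  have u : cexp (2 * π * I / (10 : ℕ)) - cexp (2 * π * I / (10 : ℕ)) ^ 4 = c 10 1 := by
    rw [c, ← Complex.exp_nat_mul]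
    push_cast
    rw [Complex.two_cos, show 4 * (2 * π * I / 10) = -(2 * π * 1 / 10) * I + π * I by ring,
      Complex.exp_add, Complex.exp_pi_mul_I]
    ring_nf
  rw [u, G] at v
  have pos : 0 < ∏ k ∈ R p, (if k ≤ p / 10 then -1 else 1) * (c 10 1 - c p k) := by
    refine prod_pos fun k hk => ?_
    have hk := mem_Icc.1 (mem_filter.1 hk).1
    have k0 : (0 : ℝ) ≤ k := by positivity
    have := Real.pi_pos
    unfold c
    split_ifs with b
    · have b : (10 * k : ℝ) < p := by exact_mod_cast (show 10 * k < p by omega)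
      have := Real.cos_lt_cos_of_nonneg_of_le_pi (x := 2 * π * k / p)
        (y := 2 * π * (1 : ℕ) / (10 : ℕ)) (by positivity) (by push_cast; linarith)
        (by rw [div_lt_div_iff₀ p0 (by norm_num)]; push_cast; nlinarith)
      linarith
    · have b : (p : ℝ) < 10 * k := by exact_mod_cast (show p < 10 * k by omega)
      have b' : (2 * k : ℝ) < p := by exact_mod_cast (show 2 * k < p by omega)
      have := Real.cos_lt_cos_of_nonneg_of_le_pi (y := 2 * π * k / p)
        (x := 2 * π * (1 : ℕ) / (10 : ℕ)) (by positivity) (by rw [div_le_iff₀ p0]; nlinarith)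
        (by rw [div_lt_div_iff₀ (by norm_num) p0]; push_cast; nlinarith)
      linarith
  rw [prod_mul_distrib, prod_ite, prod_const, prod_const_one, mul_one] at pos
  have q : quadraticChar (ZMod p) (p / 10 + 1 : ℕ) = -1 := by
    have e : ∃ s : ℕ, (s = 1 ∨ s = 3) ∧ 2 * 5 * (p / 10 + 1) = p + s ^ 2 := by
      rcases h with h | h
      · exact ⟨3, by omega, by omega⟩
      · exact ⟨1, by omega, by omega⟩
    obtain ⟨s, hs, e⟩ := e
    have e' := congrArg (fun n : ℕ => quadraticChar (ZMod p) n) e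
    simp only [Nat.cast_mul, map_mul, Nat.cast_ofNat, q2 h, q5 h] at e'
    rw [Nat.cast_add p, natCast_self, zero_add, Nat.cast_pow,
      quadraticChar_sq_one' (nz (mem_Icc.2 (by omega)))] at e'
    linarith
  have par : nr p (p / 10 + 1) + #{k ∈ R p | k ≤ p / 10} = p / 10 + 1 := by
    have := card_filter_add_card_filter_not (s := Icc 1 (p / 10 + 1))
      fun k : ℕ => legendreSym p k = -1
    rw [Nat.card_Icc, Nat.add_sub_cancel] at this
    refine Eq.trans ?_ this
    rw [nr, add_right_inj]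
    congr 1
    ext k
    simp only [R, mem_filter, mem_Icc, legendreSym, Int.cast_natCast]
    constructor
    · rintro ⟨⟨a, b⟩, d⟩
      exact ⟨by omega, by rw [b]; norm_num⟩
    · rintro ⟨a, b⟩
      have : k ≠ p / 10 + 1 := by rintro rfl; exact b q
      exact ⟨⟨by omega, (quadraticChar_dichotomy (nz (mem_Icc.2 (by omega)))).resolve_right b⟩,
        by omega⟩
  rw [← v]
  have e : ∏ k ∈ R p, ((c 10 1 : ℂ) - c p k) = (∏ k ∈ R p, (c 10 1 - c p k) : ℝ) := by
    push_cast; rfl
  rw [e] at v ⊢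
  generalize ∏ k ∈ R p, (c 10 1 - c p k) = g at *
  have g2 : g ^ 2 = 1 := by
    have : (g : ℂ) ^ 2 = 1 := by rw [v]; split_ifs <;> linear_combination hs
    exact_mod_cast this
  have : g = -(-1) ^ nr p (p / 10 + 1) := by
    rcases Nat.even_or_odd (nr p (p / 10 + 1)) with o | o
    · have : Odd #{k ∈ R p | k ≤ p / 10} := by rw [Nat.odd_iff]; rw [Nat.even_iff] at o; omega
      rw [this.neg_one_pow] at pos
      rw [o.neg_one_pow]; nlinarith
    · have : Even #{k ∈ R p | k ≤ p / 10} := by rw [Nat.even_iff]; rw [Nat.odd_iff] at o; omega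
      rw [this.neg_one_pow] at pos
      rw [o.neg_one_pow]; nlinarith
  exact_mod_cast this

omit hp in
theorem result (p : ℕ) [Fact p.Prime] (ζ : ℂ) (hζ : IsPrimitiveRoot ζ 10) :
    (p % 40 = 21 → S p ζ = (-1) ^ nr p ((p + 9) / 10)) ∧
    (p % 40 = 29 → S p ζ = (-1) ^ nr p ((p + 1) / 10) * ζ ^ 2) := by
  constructor <;> intro h
  · obtain ⟨a, b⟩ := val (.inl h) (cyc hζ)
    rw [b, a, sgn (.inl h), if_pos h, show (p + 9) / 10 = p / 10 + 1 by omega]; ring
  · obtain ⟨a, b⟩ := val (.inr h) (cyc hζ)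
    rw [b, a, sgn (.inr h), if_neg (by omega), show (p + 1) / 10 = p / 10 + 1 by omega]; ring

end Pool.Agent.Results.MP_10d431_nt.Tenth
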